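import Pool.Agent.MP_d8ab80_nt.Defs
import Pool.Agent.Mg.Fd8ab80.Gc511a3

namespace Pool.Agent.Results.MP_d8ab80_nt.Full
open Pool.Agent.MP_d8ab80_nt

theorem result : ∀ p : ℕ, p.Prime → 3 < p →
    (∀ x y : ℤ, jacobiSym p 7 = 1 → (p : ℤ) = x ^ 2 + 7 * y ^ 2 → jacobiSym x 7 = 1 →
      Cong p 2 (sumS p) ((jacobiSym p 3 : ℚ) * (2 * (x : ℚ) - (p : ℚ) / (2 * (x : ℚ)))) ∧
      Cong p 2 (sumT p) (8 * (jacobiSym p 3 : ℚ) * (x : ℚ))) ∧
    (jacobiSym p 7 = -1 → Cong p 1 (sumS p) 0 ∧ Cong p 1 (sumU p) 0) := by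
  intro p hp h3
  have : Fact p.Prime := ⟨hp⟩
  refine ⟨fun x y h7 h hx => ?_, fun h7 => ?_⟩
  · have := final_a h3 h7 h hx
    simp only [Cong, sumS, sumT, mul_assoc]
    push_cast at this
    simpa only [mul_assoc] using this
  · have := final_b h3 h7
    simp only [Cong, sumS, sumU, sub_zero]
    push_cast at this
    exact this

end Pool.Agent.Results.MP_d8ab80_nt.Full
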