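import Pool.Agent.MP_d8ab80_nt.Defs
import Pool.Agent.MP_d8ab80_nt.In.Dec
import Pool.Agent.MP_d8ab80_nt.In.Ser
import Pool.Agent.MP_d8ab80_nt.In.Rel
import Pool.Agent.MP_d8ab80_nt.In.PC
import Pool.Agent.MP_d8ab80_nt.In.US
import Pool.Agent.MP_d8ab80_nt.In.Bin
import Pool.Agent.MP_d8ab80_nt.In.Fin

namespace Pool.Agent.Results.MP_d8ab80_nt.InertSquare
open Pool.Agent.MP_d8ab80_nt

/-- The sum `S(p)` modulo `p ^ 2` at the primes that are not squares modulo seven. -/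
theorem result : ∀ p : ℕ, p.Prime → 3 < p → jacobiSym p 7 = -1 →
    Cong p 2 (sumS p) (-(jacobiSym p 3 : ℚ) * (2 * (p : ℚ)) /
      (3 * (Nat.choose ((3 * p - 2) / 7) ((p + 1) / 7) : ℚ))) := by
  intro p hp h3 h7
  have : Fact p.Prime := ⟨hp⟩
  have h7' : p ≠ 7 := by rintro rfl; norm_num at h7
  obtain ⟨i, hi⟩ := exists_i63 h3 h7'
  have h := In.fin p (In.rel p (In.dec p) (In.red p) (In.ser p)) (In.pc p) (In.us p (In.pc p))
    (In.bin p) h3 h7 hi
  have hB : ¬ p ∣ 3 * ((3 * p - 2) / 7).choose ((p + 1) / 7) := fun hd => by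
    rcases (Nat.Prime.dvd_mul hp).1 hd with hd | hd
    · have := Nat.le_of_dvd (by norm_num) hd; omega
    · exact (Nat.Prime.coprime_iff_not_dvd hp).1
        (hp.coprime_choose_of_lt (by omega) (by omega)) hd
  generalize ((3 * p - 2) / 7).choose ((p + 1) / 7) = B at h hB ⊢
  obtain ⟨v, hv⟩ := (In.unit_nat p hB).exists_right_inv
  have hv' : (v : ℚ_[p]) = (3 * (B : ℚ_[p]))⁻¹ := by
    have := congrArg ((↑) : ℤ_[p] → ℚ_[p]) hv
    push_cast at this
    exact eq_inv_of_mul_eq_one_right this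
  push_cast at hv
  have e4 : ∀ k, 4 * k = 2 * (2 * k) := fun k => by ring
  have e := cast_sum63 hi fun k => (2 * k).choose k * (4 * k).choose (2 * k)
  refine not_dvd_den (Z := ∑ k ∈ Finset.range p,
    ((k.centralBinom : ℤ_[p]) * (2 * k).centralBinom) * i ^ k + 2 * (jacobiSym p 3 : ℤ) * p * v)
    ?_ ?_
  · obtain ⟨z, hz⟩ := h
    exact ⟨z * v, by linear_combination v * hz - (∑ k ∈ Finset.range p,
      ((k.centralBinom : ℤ_[p]) * (2 * k).centralBinom) * i ^ k) * hv⟩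
  · rw [Rat.cast_sub, sumS]
    simp only [Nat.cast_mul] at e
    rw [e]
    simp only [Nat.centralBinom, e4]
    push_cast
    rw [hv', show ((2 : ℤ_[p]) : ℚ_[p]) = 2 from rfl]
    ring

end Pool.Agent.Results.MP_d8ab80_nt.InertSquare
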